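import Mathlib

/-!
# Positive groups on ordered Hilbert spaces: the definitions
-/

namespace Pool.Agent.Lib.MP_e5770a_an

open Filter Topology

/-- `C` is a closed, normal and generating cone of the real Hilbert space `H`. -/
structure IsOrderCone {H : Type*} [NormedAddCommGroup H] [InnerProductSpace ℝ H]
    (C : Set H) : Prop where
  zero_mem : (0 : H) ∈ C
  add_mem : ∀ x ∈ C, ∀ y ∈ C, x + y ∈ C
  smul_mem : ∀ r : ℝ, 0 ≤ r → ∀ x ∈ C, r • x ∈ C
  isClosed : IsClosed C
  normal : ∃ c : ℝ, 0 < c ∧ ∀ x y : H, x ∈ C → y - x ∈ C → ‖x‖ ≤ c * ‖y‖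
  generating : ∀ z : H, ∃ x ∈ C, ∃ y ∈ C, z = x - y

/-- The complex Hilbert space `K`, together with the real linear map `ι : H → K`, is the
complexification `H ⊕ iH` of the real Hilbert space `H`: every vector of `K` is of the form
`ι x + i ι y`, and `ι` preserves the inner product (so `‖ι x + i ι y‖² = ‖x‖² + ‖y‖²`). -/
structure IsComplexification {H K : Type*} [NormedAddCommGroup H] [InnerProductSpace ℝ H]
    [NormedAddCommGroup K] [InnerProductSpace ℂ K] (ι : H →ₗ[ℝ] K) : Prop where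
  inner_map : ∀ x y : H, inner ℂ (ι x) (ι y) = ((inner ℝ x y : ℝ) : ℂ)
  exists_decomp : ∀ z : K, ∃ x y : H, z = ι x + Complex.I • ι y

/-- `B` maps the cone `C` (embedded in the complexification by `ι`) into itself. -/
def IsPositiveOp {H K : Type*} [NormedAddCommGroup H] [InnerProductSpace ℝ H]
    [NormedAddCommGroup K] [InnerProductSpace ℂ K] (ι : H →ₗ[ℝ] K) (C : Set H)
    (B : K →L[ℂ] K) : Prop :=
  ∀ x ∈ C, ∃ y ∈ C, B (ι x) = ι y

/-- `(T t)`, `t ∈ ℝ`, is a strongly continuous group of bounded operators. -/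
structure IsC0Group {K : Type*} [NormedAddCommGroup K] [NormedSpace ℂ K]
    (T : ℝ → K →L[ℂ] K) : Prop where
  map_zero : T 0 = ContinuousLinearMap.id ℂ K
  map_add : ∀ s t : ℝ, T (s + t) = (T s).comp (T t)
  continuous : ∀ x : K, Continuous fun t => T t x

/-- `x` is in the domain of the generator `A` of `T`, and `A x = y`. -/
def GenRel {K : Type*} [NormedAddCommGroup K] [NormedSpace ℂ K]
    (T : ℝ → K →L[ℂ] K) (x y : K) : Prop :=
  Tendsto (fun h : ℝ => h⁻¹ • (T h x - x)) (𝓝[>] 0) (𝓝 y)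

/-- `R` is the (bounded, everywhere defined) inverse of `z - A`, where `A` is the generator of
`T`. -/
def IsResolvent {K : Type*} [NormedAddCommGroup K] [NormedSpace ℂ K]
    (T : ℝ → K →L[ℂ] K) (z : ℂ) (R : K →L[ℂ] K) : Prop :=
  (∀ y : K, GenRel T (R y) (z • R y - y)) ∧ ∀ x w : K, GenRel T x w → R (z • x - w) = x

/-- The spectrum of the generator of `T`: all `z` such that `z - A` has no bounded inverse. -/
def genSpectrum {K : Type*} [NormedAddCommGroup K] [NormedSpace ℂ K]
    (T : ℝ → K →L[ℂ] K) : Set ℂ :=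
  {z | ¬ ∃ R : K →L[ℂ] K, IsResolvent T z R}

end Pool.Agent.Lib.MP_e5770a_an
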