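import Mathlib
import Pool.Agent.Lib.MP_e5770a_an.Defs

section

/-!
# Plancherel's theorem for Hilbert space valued functions in `L¹ ∩ L²` on the line
-/

namespace Pool.Agent.Lib.MP_e5770a_an

open MeasureTheory SchwartzMap FourierTransform Real TemperedDistribution
open scoped ENNReal ContDiff

noncomputable section

variable {K : Type*} [NormedAddCommGroup K] [InnerProductSpace ℂ K] [CompleteSpace K]

/-- The `L²` Fourier transform of an integrable square integrable function is given by the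
Fourier integral. -/
theorem fourier_toLp_ae (f : ℝ → K) (h1 : Integrable f) (h2 : MemLp f 2) :
    ((𝓕 (h2.toLp f) : Lp (α := ℝ) K 2 volume) : ℝ → K) =ᵐ[volume] 𝓕 f := by
  have hcont : Continuous (𝓕 f) :=
    VectorFourier.fourierIntegral_continuous Real.continuous_fourierChar
      (by fun_prop) h1
  apply ae_eq_of_integral_contDiff_smul_eq
  · exact (Lp.memLp _).locallyIntegrable (by norm_num)
  · exact hcont.locallyIntegrable
  · intro g g_smooth g_cpt
    have hg₁ : HasCompactSupport (Complex.ofRealCLM ∘ g) := g_cpt.comp_left rfl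
    have hg₂ : ContDiff ℝ ∞ (Complex.ofRealCLM ∘ g) := by fun_prop
    set G : 𝓢(ℝ, ℂ) := hg₁.toSchwartzMap hg₂ with hG
    have e1 : ∫ x, g x • ((𝓕 (h2.toLp f) : Lp (α := ℝ) K 2 volume) : ℝ → K) x
        = ((𝓕 (h2.toLp f) : Lp (α := ℝ) K 2 volume) : 𝓢'(ℝ, K)) G := by
      rw [Lp.toTemperedDistribution_apply]
      simp [hG]
    have e2 : ((𝓕 (h2.toLp f) : Lp (α := ℝ) K 2 volume) : 𝓢'(ℝ, K)) G
        = ((h2.toLp f : Lp (α := ℝ) K 2 volume) : 𝓢'(ℝ, K)) (𝓕 G) := by
      rw [← Lp.fourier_toTemperedDistribution_eq]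
      rfl
    have e3 : ((h2.toLp f : Lp (α := ℝ) K 2 volume) : 𝓢'(ℝ, K)) (𝓕 G) = ∫ x, (𝓕 G) x • f x := by
      rw [Lp.toTemperedDistribution_apply]
      apply integral_congr_ae
      filter_upwards [h2.coeFn_toLp] with x hx
      rw [hx]
    have e4 : ∫ x, (𝓕 G) x • f x = ∫ x, G x • 𝓕 f x := by
      simpa using! VectorFourier.integral_fourierIntegral_smul_eq_flip (L := innerₗ ℝ)
        Real.continuous_fourierChar continuous_inner G.integrable h1
    rw [e1, e2, e3, e4]
    simp [hG]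

theorem plancherel (f : ℝ → K) (h1 : Integrable f) (h2 : MemLp f 2) :
    eLpNorm (𝓕 f) 2 volume = eLpNorm f 2 volume := by
  rw [← eLpNorm_congr_ae (fourier_toLp_ae f h1 h2)]
  have := Lp.norm_fourier_eq (h2.toLp f)
  rw [Lp.norm_def, Lp.norm_def] at this
  rw [ENNReal.toReal_eq_toReal_iff' (Lp.memLp _).2.ne (Lp.memLp _).2.ne] at this
  rw [this]
  exact eLpNorm_congr_ae h2.coeFn_toLp

end

end Pool.Agent.Lib.MP_e5770a_an
end

section

/-!
# Strongly continuous groups: truncated Laplace transforms and the resolvent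
-/

namespace Pool.Agent.Lib.MP_e5770a_an

open Filter Topology MeasureTheory Set intervalIntegral

noncomputable section

variable {K : Type*} [NormedAddCommGroup K] [NormedSpace ℂ K] [CompleteSpace K]
  {T : ℝ → K →L[ℂ] K}

theorem exists_bound (hT : IsC0Group T) (L : ℝ) : ∃ M : ℝ, 1 ≤ M ∧ ∀ t ∈ Icc (-L) L, ‖T t‖ ≤ M := by
  obtain ⟨C, hC⟩ := banach_steinhaus (g := fun t : Icc (-L) L => T t) (by
    intro x
    have hcomp : IsCompact ((fun t => ‖T t x‖) '' Icc (-L) L) :=
      isCompact_Icc.image (hT.continuous x).norm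
    obtain ⟨C, hC⟩ := hcomp.bddAbove
    exact ⟨C, fun t => hC ⟨t, t.2, rfl⟩⟩)
  exact ⟨max C 1, le_max_right _ _, fun t ht => (hC ⟨t, ht⟩).trans (le_max_left _ _)⟩

/-- the integrand -/
def F (T : ℝ → K →L[ℂ] K) (z : ℂ) (x : K) (s : ℝ) : K := Complex.exp (-(z * s)) • T s x

omit [CompleteSpace K] in
theorem continuous_F (hT : IsC0Group T) (z : ℂ) (x : K) : Continuous (F T z x) := by
  unfold F
  exact (by fun_prop : Continuous fun s : ℝ => Complex.exp (-(z * s))).smul (hT.continuous x)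

/-- the truncated Laplace transform as a linear map -/
def Vlin (hT : IsC0Group T) (z : ℂ) (t : ℝ) : K →ₗ[ℂ] K where
  toFun x := ∫ s in (0:ℝ)..t, F T z x s
  map_add' x y := by
    rw [← integral_add ((continuous_F hT z x).intervalIntegrable _ _)
      ((continuous_F hT z y).intervalIntegrable _ _)]
    congr 1
    ext s
    simp [F]
  map_smul' c x := by
    rw [RingHom.id_apply, ← intervalIntegral.integral_smul]
    congr 1
    ext s
    simp only [F, map_smul]
    rw [smul_comm]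

/-- the truncated Laplace transform as a bounded operator -/
def V (hT : IsC0Group T) (z : ℂ) (t : ℝ) : K →L[ℂ] K :=
  (Vlin hT z t).mkContinuousOfExistsBound (by
    obtain ⟨M, hM1, hM⟩ := exists_bound hT |t|
    obtain ⟨N, hN⟩ : ∃ N : ℝ, ∀ s ∈ Icc (-|t|) |t|, ‖Complex.exp (-(z * s))‖ ≤ N := by
      have hcomp : IsCompact ((fun s : ℝ => ‖Complex.exp (-(z * s))‖) '' Icc (-|t|) |t|) :=
        isCompact_Icc.image (by fun_prop)
      obtain ⟨C, hC⟩ := hcomp.bddAbove
      exact ⟨C, fun s hs => hC ⟨s, hs, rfl⟩⟩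
    refine ⟨N * M * |t|, fun x => ?_⟩
    have h := norm_integral_le_of_norm_le_const (a := 0) (b := t) (C := N * M * ‖x‖)
      (f := F T z x) (by
        intro s hs
        have hs' : s ∈ Icc (-|t|) |t| := by
          rcases le_total 0 t with h0 | h0
          · rw [uIoc_of_le h0] at hs
            rw [abs_of_nonneg h0]
            exact ⟨by linarith [hs.1], hs.2⟩
          · rw [uIoc_of_ge h0] at hs
            rw [abs_of_nonpos h0]
            exact ⟨by linarith [hs.1], by linarith [hs.2]⟩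
        unfold F
        rw [norm_smul]
        have h1 := (T s).le_opNorm x
        have h2 := hM s hs'
        have h3 := hN s hs'
        calc ‖Complex.exp (-(z * s))‖ * ‖T s x‖ ≤ N * (M * ‖x‖) := by
              gcongr
              · exact (norm_nonneg _).trans h3
              · exact h1.trans (by gcongr)
          _ = N * M * ‖x‖ := by ring)
    rw [sub_zero] at h
    show ‖∫ s in (0:ℝ)..t, F T z x s‖ ≤ _
    linarith)

theorem V_apply (hT : IsC0Group T) (z : ℂ) (t : ℝ) (x : K) :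
    V hT z t x = ∫ s in (0:ℝ)..t, F T z x s := rfl

omit [CompleteSpace K] in
theorem T_comm (hT : IsC0Group T) (s t : ℝ) (x : K) : T s (T t x) = T t (T s x) := by
  have h1 := congrArg (fun B : K →L[ℂ] K => B x) (hT.map_add s t)
  have h2 := congrArg (fun B : K →L[ℂ] K => B x) (hT.map_add t s)
  simp only [ContinuousLinearMap.comp_apply] at h1 h2
  rw [← h1, ← h2, add_comm]

omit [CompleteSpace K] in
theorem T_add (hT : IsC0Group T) (s t : ℝ) (x : K) : T (s + t) x = T s (T t x) := by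
  have h1 := congrArg (fun B : K →L[ℂ] K => B x) (hT.map_add s t)
  simpa using h1

omit [CompleteSpace K] in
theorem T_zero (hT : IsC0Group T) (x : K) : T 0 x = x := by
  rw [hT.map_zero]; rfl

theorem V_T (hT : IsC0Group T) (z : ℂ) (t h : ℝ) (x : K) :
    V hT z t (T h x) = T h (V hT z t x) := by
  rw [V_apply, V_apply, ← ContinuousLinearMap.intervalIntegral_comp_comm _
    ((continuous_F hT z x).intervalIntegrable _ _)]
  congr 1
  ext s
  simp only [F, map_smul]
  rw [T_comm hT]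

theorem T_V (hT : IsC0Group T) (z : ℂ) (t h : ℝ) (x : K) :
    T h (V hT z t x) = Complex.exp (z * h) •
      ((∫ s in (0:ℝ)..(t + h), F T z x s) - ∫ s in (0:ℝ)..h, F T z x s) := by
  rw [V_apply, ← ContinuousLinearMap.intervalIntegral_comp_comm _
    ((continuous_F hT z x).intervalIntegrable _ _)]
  rw [intervalIntegral.integral_interval_sub_left
    ((continuous_F hT z x).intervalIntegrable _ _) ((continuous_F hT z x).intervalIntegrable _ _)]
  rw [← intervalIntegral.integral_smul]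
  have h1 : (∫ s in h..(t + h), Complex.exp (z * h) • F T z x s)
      = ∫ s in (0:ℝ)..t, Complex.exp (z * h) • F T z x (s + h) := by
    rw [intervalIntegral.integral_comp_add_right (fun s => Complex.exp (z * h) • F T z x s)]
    simp
  rw [h1]
  congr 1
  ext s
  simp only [F, map_smul, smul_smul]
  rw [← Complex.exp_add, add_comm s h, T_add hT]
  congr 2
  push_cast
  ring

omit [CompleteSpace K] in
theorem genRel_of_hasDerivAt (hT : IsC0Group T) {x y : K} (h : HasDerivAt (fun t => T t x) y 0) :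
    GenRel T x y := by
  rw [hasDerivAt_iff_tendsto_slope_zero] at h
  simp only [zero_add, T_zero hT] at h
  exact h.mono_left (nhdsWithin_mono _ (fun u hu => (ne_of_gt hu)))

theorem genRel_V (hT : IsC0Group T) (z : ℂ) (t : ℝ) (x : K) :
    GenRel T (V hT z t x) (z • V hT z t x - (x - Complex.exp (-(z * t)) • T t x)) := by
  apply genRel_of_hasDerivAt hT
  have hF := continuous_F hT z x
  have hG : ∀ u : ℝ, HasDerivAt (fun u => ∫ s in (0:ℝ)..u, F T z x s) (F T z x u) u := fun u =>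
    intervalIntegral.integral_hasDerivAt_right (hF.intervalIntegrable _ _)
      (hF.stronglyMeasurableAtFilter _ _) hF.continuousAt
  have h1 : HasDerivAt (fun h : ℝ => ∫ s in (0:ℝ)..(t + h), F T z x s) (F T z x t) 0 := by
    have := HasDerivAt.scomp (𝕜' := ℝ) (0:ℝ) (g₁ := fun u => ∫ s in (0:ℝ)..u, F T z x s)
      (h := fun h : ℝ => t + h) (h' := 1) (g₁' := F T z x t) (by simpa using hG t)
      ((hasDerivAt_id (0:ℝ)).const_add t)
    simpa [Function.comp_def] using this
  have h2 := h1.sub (hG 0)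
  have h3 : HasDerivAt (fun h : ℝ => Complex.exp (z * h)) z 0 := by
    have h4 : HasDerivAt (fun h : ℝ => z * (h : ℂ)) z 0 := by
      simpa using (Complex.ofRealCLM.hasDerivAt (x := (0:ℝ))).const_mul z
    simpa using h4.cexp
  have h5 : HasDerivAt (fun h : ℝ => Complex.exp (z * h) •
      ((∫ s in (0:ℝ)..(t + h), F T z x s) - ∫ s in (0:ℝ)..h, F T z x s)) _ 0 := h3.smul h2
  have h6 : (fun h : ℝ => T h (V hT z t x)) = fun h : ℝ => Complex.exp (z * h) •
      ((∫ s in (0:ℝ)..(t + h), F T z x s) - ∫ s in (0:ℝ)..h, F T z x s) := by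
    ext h
    exact T_V hT z t h x
  rw [h6]
  refine h5.congr_deriv ?_
  simp [F, T_zero hT, V_apply]
  abel

theorem V_genRel (hT : IsC0Group T) (z : ℂ) (t : ℝ) {x w : K} (h : GenRel T x w) :
    V hT z t (z • x - w) = x - Complex.exp (-(z * t)) • T t x := by
  have h1 : Tendsto (fun u : ℝ => V hT z t (u⁻¹ • (T u x - x))) (𝓝[>] 0) (𝓝 (V hT z t w)) :=
    ((V hT z t).continuous.tendsto w).comp h
  have h2 := genRel_V hT z t x
  have h3 : (fun u : ℝ => V hT z t (u⁻¹ • (T u x - x)))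
      = fun u : ℝ => u⁻¹ • (T u (V hT z t x) - V hT z t x) := by
    ext u
    rw [← V_T hT, ← map_sub]
    exact (V hT z t).map_smul_of_tower _ _
  rw [h3] at h1
  have h4 := tendsto_nhds_unique h1 h2
  rw [map_sub, map_smul, h4]
  abel

end

end Pool.Agent.Lib.MP_e5770a_an
end

section

/-!
# Resolvents of positive groups
-/

namespace Pool.Agent.Lib.MP_e5770a_an

open Filter Topology MeasureTheory Set intervalIntegral

noncomputable section

variable {K : Type*} [NormedAddCommGroup K] [NormedSpace ℂ K] [CompleteSpace K]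
  {T : ℝ → K →L[ℂ] K}

/-- a closed cone -/
structure IsCone (P : Set K) : Prop where
  zero_mem : (0 : K) ∈ P
  add_mem : ∀ x ∈ P, ∀ y ∈ P, x + y ∈ P
  smul_mem : ∀ r : ℝ, 0 ≤ r → ∀ x ∈ P, r • x ∈ P
  isClosed : IsClosed P

/-- positivity of an operator with respect to `P` -/
def Pos (P : Set K) (B : K →L[ℂ] K) : Prop := ∀ x ∈ P, B x ∈ P

variable {P : Set K}

omit [CompleteSpace K] in
theorem IsCone.convex (hP : IsCone P) : Convex ℝ P := by
  intro x hx y hy a b ha hb _
  exact hP.add_mem _ (hP.smul_mem a ha x hx) _ (hP.smul_mem b hb y hy)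

theorem IsCone.integral_mem (hP : IsCone P) {t : ℝ} (ht : 0 ≤ t) {f : ℝ → K}
    (hf : Continuous f) (hfP : ∀ s, 0 ≤ s → f s ∈ P) : (∫ s in (0:ℝ)..t, f s) ∈ P := by
  rcases ht.eq_or_lt with h0 | h0
  · rw [← h0]; simpa using hP.zero_mem
  · have hmem := hP.convex.set_average_mem (μ := volume) (t := Ioc 0 t) (f := f) hP.isClosed
      (by simpa using h0) (by simp) (by
        refine (ae_restrict_iff' measurableSet_Ioc).2 (Eventually.of_forall ?_)
        intro s hs; exact hfP s hs.1.le) (hf.integrableOn_Ioc)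
    rw [setAverage_eq] at hmem
    have h1 := hP.smul_mem t ht _ hmem
    rw [smul_smul] at h1
    have h2 : t * (volume.real (Ioc 0 t))⁻¹ = 1 := by
      rw [Real.volume_real_Ioc_of_le ht]
      field_simp
      simp
    rw [h2, one_smul] at h1
    rwa [intervalIntegral.integral_of_le ht]

omit [CompleteSpace K] in
theorem Pos.mul {A B : K →L[ℂ] K} (hA : Pos P A) (hB : Pos P B) : Pos P (A * B) := by
  intro x hx
  exact hA _ (hB _ hx)

omit [CompleteSpace K] in
theorem Pos.pow {A : K →L[ℂ] K} (hA : Pos P A) (n : ℕ) : Pos P (A ^ n) := by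
  induction n with
  | zero => intro x hx; simpa using hx
  | succ n ih => rw [pow_succ]; exact ih.mul hA

omit [CompleteSpace K] in
theorem Pos.smul (hP : IsCone P) {A : K →L[ℂ] K} (hA : Pos P A) {r : ℝ} (hr : 0 ≤ r) :
    Pos P ((r : ℂ) • A) := by
  intro x hx
  have := hP.smul_mem r hr _ (hA x hx)
  simpa using this

omit [CompleteSpace K] in
theorem Pos.sum (hP : IsCone P) {ι : Type*} (s : Finset ι) {A : ι → K →L[ℂ] K}
    (hA : ∀ i ∈ s, Pos P (A i)) : Pos P (∑ i ∈ s, A i) := by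
  classical
  induction s using Finset.induction_on with
  | empty => intro x _; simpa using hP.zero_mem
  | insert a s has ih =>
    rw [Finset.sum_insert has]
    intro x hx
    exact hP.add_mem _ (hA a (Finset.mem_insert_self _ _) x hx) _
      (ih (fun i hi => hA i (Finset.mem_insert_of_mem hi)) x hx)

/-- the Neumann series is positive -/
theorem Pos.oneSub_inv (hP : IsCone P) {Q : K →L[ℂ] K} (hQ : Pos P Q) (hn : ‖Q‖ < 1) :
    Pos P ((Units.oneSub Q hn)⁻¹ : (K →L[ℂ] K)ˣ) := by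
  intro x hx
  have h1 : HasSum (fun n : ℕ => Q ^ n) (((Units.oneSub Q hn)⁻¹ : (K →L[ℂ] K)ˣ) : K →L[ℂ] K) :=
    (summable_geometric_of_norm_lt_one hn).hasSum
  have h2 : HasSum (fun n : ℕ => (Q ^ n) x)
      ((((Units.oneSub Q hn)⁻¹ : (K →L[ℂ] K)ˣ) : K →L[ℂ] K) x) := by
    have := h1.mapL (ContinuousLinearMap.apply ℂ K x)
    simpa using this
  exact hP.isClosed.mem_of_tendsto h2.tendsto_sum_nat (Eventually.of_forall fun n => by
    have := Pos.sum hP (Finset.range n) (A := fun i => Q ^ i) (fun i _ => hQ.pow i) x hx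
    simpa [_root_.sum_apply] using this)

omit [CompleteSpace K] in
theorem IsResolvent.unique {z : ℂ} {R R' : K →L[ℂ] K} (h : IsResolvent T z R)
    (h' : IsResolvent T z R') : R = R' := by
  ext y
  have := h'.2 _ _ (h.1 y)
  rw [← this]
  congr 1
  abel

omit [CompleteSpace K] in
/-- the resolvent identity -/
theorem IsResolvent.identity {z z' : ℂ} {R R' : K →L[ℂ] K} (h : IsResolvent T z R)
    (h' : IsResolvent T z' R') (y : K) : R' y = R y + (z - z') • R' (R y) := by
  have h1 := h'.2 _ _ (h.1 y)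
  have h2 : z' • R y - (z • R y - y) = y - (z - z') • R y := by
    rw [sub_smul]; abel
  rw [h2, map_sub, map_smul] at h1
  exact sub_eq_iff_eq_add.1 h1

/-- the resolvent from the truncated Laplace transform -/
theorem isResolvent_V (hT : IsC0Group T) (z : ℂ) (t : ℝ)
    (hn : ‖Complex.exp (-(z * t)) • T t‖ < 1) :
    IsResolvent T z (V hT z t * ((Units.oneSub _ hn)⁻¹ : (K →L[ℂ] K)ˣ)) := by
  set Q : K →L[ℂ] K := Complex.exp (-(z * t)) • T t with hQ
  set U : (K →L[ℂ] K)ˣ := Units.oneSub Q hn with hU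
  have hUv : (U : K →L[ℂ] K) = 1 - Q := rfl
  have hcomm : V hT z t * Q = Q * V hT z t := by
    ext x
    show V hT z t (Q x) = Q (V hT z t x)
    rw [hQ]
    simp only [FunLike.coe_smul, Pi.smul_apply, map_smul]
    rw [V_T hT]
  have hcommU : V hT z t * (U : K →L[ℂ] K) = U * V hT z t := by
    rw [hUv, mul_sub, sub_mul, hcomm, mul_one, one_mul]
  have hcommU' : V hT z t * ((U⁻¹ : (K →L[ℂ] K)ˣ) : K →L[ℂ] K) = (U⁻¹ : (K →L[ℂ] K)ˣ) * V hT z t := by
    have : Commute (V hT z t) (U : K →L[ℂ] K) := hcommU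
    exact this.units_inv_right
  constructor
  · intro y
    have h1 := genRel_V hT z t (((U⁻¹ : (K →L[ℂ] K)ˣ) : K →L[ℂ] K) y)
    have h2 : (((U⁻¹ : (K →L[ℂ] K)ˣ) : K →L[ℂ] K) y)
        - Complex.exp (-(z * t)) • T t (((U⁻¹ : (K →L[ℂ] K)ˣ) : K →L[ℂ] K) y) = y := by
      have h3 : ((U : K →L[ℂ] K) * ((U⁻¹ : (K →L[ℂ] K)ˣ) : K →L[ℂ] K)) y = y := by
        rw [Units.mul_inv]; rfl
      exact h3
    rw [h2] at h1
    exact h1
  · intro x w hw
    rw [hcommU']
    show ((U⁻¹ : (K →L[ℂ] K)ˣ) : K →L[ℂ] K) (V hT z t (z • x - w)) = x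
    rw [V_genRel hT z t hw]
    have h3 : (((U⁻¹ : (K →L[ℂ] K)ˣ) : K →L[ℂ] K) * (U : K →L[ℂ] K)) x = x := by
      rw [Units.inv_mul]; rfl
    exact h3

/-- positivity of the truncated Laplace transform -/
theorem Pos.V (hT : IsC0Group T) (hP : IsCone P) (hpos : ∀ t, Pos P (T t)) (a : ℝ) {t : ℝ}
    (ht : 0 ≤ t) : Pos P (V hT a t) := by
  intro x hx
  rw [V_apply]
  refine hP.integral_mem ht (continuous_F hT a x) fun s _ => ?_
  have := hP.smul_mem (Real.exp (-(a * s))) (Real.exp_pos _).le _ (hpos s x hx)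
  unfold F
  have h2 : Complex.exp (-((a:ℂ) * s)) = ((Real.exp (-(a * s)) : ℝ) : ℂ) := by
    push_cast; rfl
  rw [h2, Complex.coe_smul]
  exact this

theorem pos_resolvent_of_norm_lt (hT : IsC0Group T) (hP : IsCone P) (hpos : ∀ t, Pos P (T t))
    (a : ℝ) {t : ℝ} (ht : 0 ≤ t) (hn : ‖Complex.exp (-((a:ℂ) * t)) • T t‖ < 1)
    {R : K →L[ℂ] K} (hR : IsResolvent T a R) : Pos P R := by
  rw [hR.unique (isResolvent_V hT a t hn)]
  refine (Pos.V hT hP hpos a ht).mul (Pos.oneSub_inv hP ?_ hn)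
  have h2 : Complex.exp (-((a:ℂ) * t)) = ((Real.exp (-(a * t)) : ℝ) : ℂ) := by
    push_cast; rfl
  rw [h2]
  exact (hpos t).smul hP (Real.exp_pos _).le

/-- going down -/
theorem pos_resolvent_step (hP : IsCone P) {l m : ℝ} {R R' : K →L[ℂ] K}
    (hR : IsResolvent T l R) (hR' : IsResolvent T m R') (hml : m ≤ l)
    (hn : (l - m) * ‖R‖ < 1) (hpos : Pos P R) : Pos P R' := by
  set Q : K →L[ℂ] K := ((l - m : ℝ) : ℂ) • R with hQ
  have hQn : ‖Q‖ < 1 := by
    rw [hQ, norm_smul, Complex.norm_real, Real.norm_of_nonneg (by linarith)]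
    exact hn
  set U : (K →L[ℂ] K)ˣ := Units.oneSub Q hQn with hU
  have h1 : R' * (U : K →L[ℂ] K) = R := by
    ext y
    show R' (y - Q y) = R y
    rw [map_sub, hR.identity hR' y, hQ]
    simp
  have h2 : R' = R * ((U⁻¹ : (K →L[ℂ] K)ˣ) : K →L[ℂ] K) := by
    rw [← h1, mul_assoc, Units.mul_inv, mul_one]
  rw [h2]
  exact hpos.mul (Pos.oneSub_inv hP (hpos.smul hP (by linarith)) hQn)

omit [CompleteSpace K] in
theorem norm_resolvent_le {l m : ℝ} {R R' : K →L[ℂ] K}
    (hR : IsResolvent T l R) (hR' : IsResolvent T m R') (hn : |l - m| * ‖R‖ ≤ 1 / 2) :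
    ‖R'‖ ≤ 2 * ‖R‖ := by
  have h1 : R' = R + ((l:ℂ) - m) • (R' * R) := by
    ext y
    exact hR.identity hR' y
  have h2 : ‖R'‖ ≤ ‖R‖ + |l - m| * (‖R'‖ * ‖R‖) := by
    calc ‖R'‖ = ‖R + ((l:ℂ) - m) • (R' * R)‖ := congrArg norm h1
      _ ≤ ‖R‖ + ‖((l:ℂ) - m) • (R' * R)‖ := norm_add_le _ _
      _ ≤ ‖R‖ + |l - m| * (‖R'‖ * ‖R‖) := by
        gcongr
        rw [norm_smul, ← Complex.ofReal_sub, Complex.norm_real, Real.norm_eq_abs]
        gcongr
        exact norm_mul_le _ _
  nlinarith [norm_nonneg R', norm_nonneg R]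

/-- the resolvent is positive on the whole half line to the right of the real spectrum -/
theorem pos_resolvent (hP : IsCone P) {a l₁ : ℝ} (hal : a ≤ l₁) (R : ℝ → K →L[ℂ] K)
    (hR : ∀ l, a ≤ l → IsResolvent T l (R l)) (h1 : Pos P (R l₁)) : Pos P (R a) := by
  set S : Set ℝ := {l | a ≤ l ∧ l ≤ l₁ ∧ Pos P (R l)} with hS
  have hne : S.Nonempty := ⟨l₁, hal, le_rfl, h1⟩
  have hbdd : BddBelow S := ⟨a, fun l hl => hl.1⟩
  set c := sInf S with hc
  have hac : a ≤ c := le_csInf hne fun l hl => hl.1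
  set δ : ℝ := 1 / (8 * (‖R c‖ + 1)) with hδ
  have hnn := norm_nonneg (R c)
  have hδ0 : 0 < δ := by positivity
  obtain ⟨l, hlS, hl⟩ := exists_lt_of_csInf_lt hne (show sInf S < c + δ by rw [← hc]; linarith)
  have hcl : c ≤ l := csInf_le hbdd hlS
  have hδ1 : δ * ‖R c‖ ≤ 1 / 8 := by
    rw [hδ, div_mul_eq_mul_div, div_le_div_iff₀ (by positivity) (by norm_num)]
    linarith
  have hRl : ‖R l‖ ≤ 2 * ‖R c‖ := by
    apply norm_resolvent_le (hR c hac) (hR l (hac.trans hcl))
    rw [abs_of_nonpos (by linarith)]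
    nlinarith
  have hm : Pos P (R (max a (c - δ))) := by
    have hmc : max a (c - δ) ≤ c := max_le hac (by linarith)
    apply pos_resolvent_step hP (hR l (hac.trans hcl)) (hR _ (le_max_left _ _)) (hmc.trans hcl) _
      hlS.2.2
    have h2 : l - max a (c - δ) ≤ 2 * δ := by
      have := le_max_right a (c - δ)
      linarith
    calc (l - max a (c - δ)) * ‖R l‖ ≤ (2 * δ) * (2 * ‖R c‖) := by
          gcongr
      _ = 4 * (δ * ‖R c‖) := by ring
      _ < 1 := by linarith
  have hmS : max a (c - δ) ∈ S := ⟨le_max_left _ _, by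
    refine le_trans (max_le hac (by linarith : c - δ ≤ c)) (csInf_le_of_le hbdd ⟨hal, le_rfl, h1⟩ le_rfl), hm⟩
  have h3 : c ≤ max a (c - δ) := csInf_le hbdd hmS
  rcases le_max_iff.1 h3 with h4 | h4
  · have h5 : max a (c - δ) = a := max_eq_left (by linarith)
    rwa [h5] at hm
  · linarith

end

end Pool.Agent.Lib.MP_e5770a_an
end

section

/-!
# Uniform bounds for truncated Laplace transforms on vertical lines
-/

namespace Pool.Agent.Lib.MP_e5770a_an

open Filter Topology MeasureTheory Set intervalIntegral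

noncomputable section

variable {K : Type*} [NormedAddCommGroup K] [NormedSpace ℂ K] [CompleteSpace K]
  {T : ℝ → K →L[ℂ] K} {P : Set K}

/-- real weights -/
def W (T : ℝ → K →L[ℂ] K) (w : ℝ → ℝ) (t : ℝ) (x : K) : K := ∫ s in (0:ℝ)..t, w s • T s x

/-- `V_t ≤ R(a)` -/
theorem W_le_resolvent (hT : IsC0Group T) (hP : IsCone P) (hpos : ∀ t, Pos P (T t)) (a : ℝ)
    {R : K →L[ℂ] K} (hR : IsResolvent T a R) (hRpos : Pos P R) (t : ℝ) {x : K} (hx : x ∈ P) :
    R x - W T (fun s => Real.exp (-(a * s))) t x ∈ P := by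
  have h1 := hR.2 _ _ (genRel_V hT a t x)
  have h2 : (a:ℂ) • V hT a t x - ((a:ℂ) • V hT a t x - (x - Complex.exp (-((a:ℂ) * t)) • T t x))
      = x - Complex.exp (-((a:ℂ) * t)) • T t x := by abel
  have h3 : ∀ s : ℝ, Complex.exp (-((a:ℂ) * s)) = ((Real.exp (-(a * s)) : ℝ) : ℂ) := by
    intro s; push_cast; rfl
  rw [h2, map_sub, map_smul, h3, Complex.coe_smul] at h1
  have h4 : W T (fun s => Real.exp (-(a * s))) t x = V hT a t x := by
    rw [V_apply, W]
    congr 1
    ext s
    rw [F, h3, Complex.coe_smul]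
  rw [h4, ← h1]
  have h5 := hP.smul_mem (Real.exp (-(a * t))) (Real.exp_pos _).le _ (hRpos _ (hpos t x hx))
  have h6 : R x - (R x - Real.exp (-(a * t)) • R (T t x)) = Real.exp (-(a * t)) • R (T t x) := by
    abel
  rw [h6]
  exact h5

theorem norm_W_le (hT : IsC0Group T) (hP : IsCone P) (hpos : ∀ t, Pos P (T t)) {c : ℝ}
    (hc : 0 ≤ c) (hnorm : ∀ x y : K, x ∈ P → y - x ∈ P → ‖x‖ ≤ c * ‖y‖) (a : ℝ)
    {R : K →L[ℂ] K} (hR : IsResolvent T a R) (hRpos : Pos P R) {t : ℝ} (ht : 0 ≤ t)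
    {x : K} (hx : x ∈ P) (w : ℝ → ℝ) (hw : Continuous w) (hw1 : ∀ s, |w s| ≤ 1) :
    ‖W T (fun s => Real.exp (-(a * s)) * w s) t x‖ ≤ 3 * c * (‖R‖ * ‖x‖) := by
  set v := W T (fun s => Real.exp (-(a * s))) t x with hv
  set u := W T (fun s => Real.exp (-(a * s)) * w s) t x with hu
  have hcontT := hT.continuous x
  have hexp : Continuous fun s : ℝ => Real.exp (-(a * s)) := by fun_prop
  have i1 : IntervalIntegrable (fun s => Real.exp (-(a * s)) • T s x) volume 0 t :=
    (hexp.smul hcontT).intervalIntegrable _ _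
  have i2 : IntervalIntegrable (fun s => (Real.exp (-(a * s)) * w s) • T s x) volume 0 t :=
    ((hexp.mul hw).smul hcontT).intervalIntegrable _ _
  have hvu : v + u ∈ P := by
    rw [hv, hu, W, W, ← integral_add i1 i2]
    refine hP.integral_mem ht ((hexp.smul hcontT).add ((hexp.mul hw).smul hcontT)) fun s _ => ?_
    rw [← add_smul]
    refine hP.smul_mem _ ?_ _ (hpos s x hx)
    have := (abs_le.1 (hw1 s)).1
    have h2 := Real.exp_pos (-(a * s))
    nlinarith
  have hvu' : v - u ∈ P := by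
    rw [hv, hu, W, W, ← intervalIntegral.integral_sub i1 i2]
    refine hP.integral_mem ht ((hexp.smul hcontT).sub ((hexp.mul hw).smul hcontT)) fun s _ => ?_
    rw [← sub_smul]
    refine hP.smul_mem _ ?_ _ (hpos s x hx)
    have := (abs_le.1 (hw1 s)).2
    have h2 := Real.exp_pos (-(a * s))
    nlinarith
  have hrv : R x - v ∈ P := W_le_resolvent hT hP hpos a hR hRpos t hx
  have hvP : v ∈ P := by
    rw [hv, W]
    refine hP.integral_mem ht (hexp.smul hcontT) fun s _ => ?_
    exact hP.smul_mem _ (Real.exp_pos _).le _ (hpos s x hx)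
  have h1 : ‖v‖ ≤ c * ‖R x‖ := hnorm v (R x) hvP hrv
  have h2 : ‖v + u‖ ≤ c * ‖(2:ℝ) • R x‖ := by
    apply hnorm _ _ hvu
    have h3 : (2:ℝ) • R x - (v + u) = (v - u) + (2:ℝ) • (R x - v) := by
      rw [smul_sub, two_smul, two_smul]; abel
    rw [h3]
    exact hP.add_mem _ hvu' _ (hP.smul_mem 2 (by norm_num) _ hrv)
  rw [norm_smul] at h2
  have h4 : ‖u‖ ≤ ‖v + u‖ + ‖v‖ := by
    have := norm_sub_le (v + u) v
    rwa [add_sub_cancel_left] at this
  have h5 : ‖R x‖ ≤ ‖R‖ * ‖x‖ := R.le_opNorm x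
  have h6 : ‖(2:ℝ)‖ = 2 := by norm_num
  rw [h6] at h2
  calc ‖u‖ ≤ c * (2 * ‖R x‖) + c * ‖R x‖ := by linarith
    _ = 3 * c * ‖R x‖ := by ring
    _ ≤ 3 * c * (‖R‖ * ‖x‖) := by gcongr

theorem V_eq_W (hT : IsC0Group T) (a b t : ℝ) (x : K) :
    V hT (a + b * Complex.I) t x = W T (fun s => Real.exp (-(a * s)) * Real.cos (b * s)) t x
      - Complex.I • W T (fun s => Real.exp (-(a * s)) * Real.sin (b * s)) t x := by
  have hcontT := hT.continuous x
  rw [V_apply, W, W, ← intervalIntegral.integral_smul, ← intervalIntegral.integral_sub]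
  · congr 1
    ext s
    have h1 : Complex.exp (-((a + b * Complex.I) * s))
        = (Real.exp (-(a * s)) : ℂ) * (Real.cos (b * s) - Complex.I * Real.sin (b * s)) := by
      have h2 : -(((a:ℂ) + b * Complex.I) * s) = ((-(a * s) : ℝ) : ℂ) + (-(b * s : ℝ) : ℂ) * Complex.I := by
        push_cast; ring
      rw [h2, Complex.exp_add, ← Complex.ofReal_exp, Complex.exp_mul_I, Complex.cos_neg,
        Complex.sin_neg, Complex.ofReal_cos, Complex.ofReal_sin]
      ring
    rw [F, h1, ← Complex.coe_smul, ← Complex.coe_smul, smul_smul, ← sub_smul]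
    congr 1
    push_cast
    ring
  · exact ((by fun_prop : Continuous fun s : ℝ => Real.exp (-(a * s)) * Real.cos (b * s)).smul
      hcontT).intervalIntegrable _ _
  · exact (((by fun_prop : Continuous fun s : ℝ => Real.exp (-(a * s)) * Real.sin (b * s)).smul
      hcontT).const_smul Complex.I).intervalIntegrable _ _

theorem norm_V_cone_le (hT : IsC0Group T) (hP : IsCone P) (hpos : ∀ t, Pos P (T t)) {c : ℝ}
    (hc : 0 ≤ c) (hnorm : ∀ x y : K, x ∈ P → y - x ∈ P → ‖x‖ ≤ c * ‖y‖) (a : ℝ)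
    {R : K →L[ℂ] K} (hR : IsResolvent T a R) (hRpos : Pos P R) {t : ℝ} (ht : 0 ≤ t)
    {x : K} (hx : x ∈ P) (b : ℝ) :
    ‖V hT (a + b * Complex.I) t x‖ ≤ 6 * c * (‖R‖ * ‖x‖) := by
  rw [V_eq_W]
  have h1 := norm_W_le hT hP hpos hc hnorm a hR hRpos ht hx (fun s => Real.cos (b * s))
    (by fun_prop) (fun s => Real.abs_cos_le_one _)
  have h2 := norm_W_le hT hP hpos hc hnorm a hR hRpos ht hx (fun s => Real.sin (b * s))
    (by fun_prop) (fun s => Real.abs_sin_le_one _)
  refine (norm_sub_le _ _).trans ?_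
  rw [norm_smul, Complex.norm_I, one_mul]
  linarith

/-- uniform boundedness of the truncated Laplace transforms on a vertical line -/
theorem exists_bound_V (hT : IsC0Group T) (hP : IsCone P) (hpos : ∀ t, Pos P (T t)) {c : ℝ}
    (hc : 0 ≤ c) (hnorm : ∀ x y : K, x ∈ P → y - x ∈ P → ‖x‖ ≤ c * ‖y‖)
    (hgen : ∀ z : K, ∃ x₁ ∈ P, ∃ x₂ ∈ P, ∃ x₃ ∈ P, ∃ x₄ ∈ P, z = (x₁ - x₂) + Complex.I • (x₃ - x₄))
    (a : ℝ) {R : K →L[ℂ] K} (hR : IsResolvent T a R) (hRpos : Pos P R) :
    ∃ D : ℝ, 0 ≤ D ∧ ∀ t : ℝ, 0 ≤ t → ∀ b : ℝ, ‖V hT (a + b * Complex.I) t‖ ≤ D := by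
  obtain ⟨D, hD⟩ := banach_steinhaus
    (g := fun p : {t : ℝ // 0 ≤ t} × ℝ => V hT (a + p.2 * Complex.I) p.1) (by
      intro z
      obtain ⟨x₁, h₁, x₂, h₂, x₃, h₃, x₄, h₄, rfl⟩ := hgen z
      refine ⟨6 * c * (‖R‖ * ‖x₁‖) + 6 * c * (‖R‖ * ‖x₂‖) +
        (6 * c * (‖R‖ * ‖x₃‖) + 6 * c * (‖R‖ * ‖x₄‖)), ?_⟩
      rintro ⟨⟨t, ht⟩, b⟩
      simp only [map_add, map_sub, map_smul]
      refine (norm_add_le _ _).trans (add_le_add ((norm_sub_le _ _).trans (add_le_add ?_ ?_)) ?_)
      · exact norm_V_cone_le hT hP hpos hc hnorm a hR hRpos ht h₁ b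
      · exact norm_V_cone_le hT hP hpos hc hnorm a hR hRpos ht h₂ b
      · rw [norm_smul, Complex.norm_I, one_mul]
        refine (norm_sub_le _ _).trans (add_le_add ?_ ?_)
        · exact norm_V_cone_le hT hP hpos hc hnorm a hR hRpos ht h₃ b
        · exact norm_V_cone_le hT hP hpos hc hnorm a hR hRpos ht h₄ b)
  exact ⟨max D 0, le_max_right _ _, fun t ht b => (hD ⟨⟨t, ht⟩, b⟩).trans (le_max_left _ _)⟩

end

end Pool.Agent.Lib.MP_e5770a_an
end

section

/-!
# From bounds on a vertical line to boundedness of the rescaled group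
-/

namespace Pool.Agent.Lib.MP_e5770a_an

open Filter Topology MeasureTheory Set FourierTransform
open scoped ENNReal NNReal

noncomputable section

section banach

variable {K : Type*} [NormedAddCommGroup K] [NormedSpace ℂ K] [CompleteSpace K]
  {T : ℝ → K →L[ℂ] K}

/-- the indicator function of `[0,1]` -/
def chi (t : ℝ) : ℝ := (Icc (0:ℝ) 1).indicator (fun _ => (1:ℝ)) t

/-- the convolution of the indicator functions of `[0,1]` and `[0,τ]` -/
def phi (τ t : ℝ) : ℝ := ∫ s in (0:ℝ)..τ, chi (t - s)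

omit [CompleteSpace K] in
theorem integrable_kernel (hT : IsC0Group T) (z : ℂ) (x : K) {τ : ℝ} (hτ : 0 ≤ τ) :
    Integrable (Function.uncurry fun s t : ℝ => chi (t - s) • F T z x t)
      ((volume.restrict (Set.uIoc 0 τ)).prod volume) := by
  have hF := continuous_F hT z x
  set A : Set (ℝ × ℝ) := {p | p.2 - p.1 ∈ Icc (0:ℝ) 1} with hA
  have hAcl : IsClosed A := isClosed_Icc.preimage (by fun_prop)
  have e1 : (Function.uncurry fun s t : ℝ => chi (t - s) • F T z x t)
      = A.indicator (fun p : ℝ × ℝ => F T z x p.2) := by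
    ext ⟨s, t⟩
    simp only [Function.uncurry_apply_pair, chi, indicator, hA, mem_ofPred_eq]
    split_ifs <;> simp
  have e2 : (volume.restrict (Set.uIoc 0 τ)).prod (volume : Measure ℝ)
      = ((volume : Measure ℝ).prod (volume : Measure ℝ)).restrict (Set.uIoc 0 τ ×ˢ univ) := by
    rw [← Measure.prod_restrict, Measure.restrict_univ]
  rw [e1, e2]
  show IntegrableOn _ _ _
  rw [integrableOn_indicator_iff hAcl.measurableSet]
  have hcomp : IsCompact (Icc (0:ℝ) τ ×ˢ Icc (0:ℝ) (τ + 1)) := isCompact_Icc.prod isCompact_Icc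
  refine IntegrableOn.mono_set ((hF.comp continuous_snd).continuousOn.integrableOn_compact hcomp) ?_
  rintro ⟨s, t⟩ ⟨h1, h2, -⟩
  rw [uIoc_of_le hτ] at h2
  simp only [hA, mem_ofPred_eq, mem_Icc] at h1
  simp only [mem_Ioc] at h2
  refine ⟨⟨h2.1.le, h2.2⟩, ⟨?_, ?_⟩⟩
  · show 0 ≤ t; linarith
  · show t ≤ τ + 1; linarith

theorem V_one_eq (hT : IsC0Group T) (z : ℂ) (x : K) :
    V hT z 1 x = ∫ t, chi t • F T z x t := by
  rw [V_apply, intervalIntegral.integral_of_le zero_le_one, ← integral_Icc_eq_integral_Ioc,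
    ← integral_indicator measurableSet_Icc]
  congr 1
  ext t
  simp only [chi, indicator]
  split_ifs <;> simp

theorem V_V_eq (hT : IsC0Group T) (z : ℂ) (x : K) {τ : ℝ} (hτ : 0 ≤ τ) :
    V hT z τ (V hT z 1 x) = ∫ t, phi τ t • F T z x t := by
  have h1 : ∀ s : ℝ, F T z (V hT z 1 x) s = ∫ t, chi (t - s) • F T z x t := by
    intro s
    rw [V_one_eq, F]
    have h2 : T s (∫ t, chi t • F T z x t) = ∫ t, T s (chi t • F T z x t) := by
      refine (ContinuousLinearMap.integral_comp_comm (T s) ?_).symm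
      have e1 : (fun t => chi t • F T z x t) = (Icc (0:ℝ) 1).indicator (F T z x) := by
        ext t
        simp only [chi, indicator]
        split_ifs <;> simp
      rw [e1, integrable_indicator_iff measurableSet_Icc]
      exact (continuous_F hT z x).integrableOn_Icc
    rw [h2, ← integral_smul]
    rw [← integral_add_right_eq_self (fun t => chi (t - s) • F T z x t) s]
    congr 1
    ext t
    simp only [add_sub_cancel_right, F]
    rw [add_comm t s, T_add hT, (T s).map_smul_of_tower, map_smul, smul_comm, smul_smul,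
      ← Complex.exp_add]
    congr 3
    push_cast
    ring
  rw [V_apply]
  simp only [h1]
  rw [intervalIntegral_integral_swap (integrable_kernel hT z x hτ)]
  congr 1
  ext t
  rw [intervalIntegral.integral_smul_const]
  rfl

theorem phi_eq_one {τ t : ℝ} (h1 : 1 ≤ t) (h2 : t ≤ τ) : phi τ t = 1 := by
  have e1 : (fun s : ℝ => chi (t - s)) = (Icc (t - 1) t).indicator (fun _ => (1:ℝ)) := by
    ext s
    simp only [chi, indicator, mem_Icc]
    by_cases h : 0 ≤ t - s ∧ t - s ≤ 1
    · rw [if_pos h, if_pos ⟨by linarith, by linarith⟩]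
    · rw [if_neg h, if_neg]
      rintro ⟨h3, h4⟩
      exact h ⟨by linarith, by linarith⟩
  rw [phi, e1, intervalIntegral.integral_of_le (by linarith),
    ← integral_Icc_eq_integral_Ioc, MeasureTheory.integral_indicator measurableSet_Icc,
    Measure.restrict_restrict measurableSet_Icc]
  have e2 : Icc (t - 1) t ∩ Icc 0 τ = Icc (t - 1) t := by
    apply inter_eq_left.2
    apply Icc_subset_Icc <;> linarith
  rw [e2]
  simp

theorem phi_nonneg_le {τ : ℝ} (hτ : 0 ≤ τ) (t : ℝ) : 0 ≤ phi τ t ∧ phi τ t ≤ τ := by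
  have h0 : ∀ u, 0 ≤ chi u ∧ chi u ≤ 1 := by
    intro u
    simp only [chi, indicator]
    split_ifs <;> norm_num
  constructor
  · exact intervalIntegral.integral_nonneg hτ fun s _ => (h0 _).1
  · have := intervalIntegral.norm_integral_le_of_norm_le_const (a := 0) (b := τ) (C := 1)
      (f := fun s => chi (t - s)) (fun s _ => by
        rw [Real.norm_of_nonneg (h0 _).1]; exact (h0 _).2)
    rw [sub_zero, abs_of_nonneg hτ, one_mul] at this
    exact (le_abs_self _).trans this

theorem phi_eq_zero {τ t : ℝ} (hτ : 0 ≤ τ) (h : t ∉ Icc 0 (τ + 1)) : phi τ t = 0 := by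
  rw [phi, intervalIntegral.integral_of_le hτ]
  apply setIntegral_eq_zero_of_forall_eq_zero
  intro s hs
  simp only [chi, indicator, mem_Icc]
  rw [if_neg]
  rintro ⟨h3, h4⟩
  exact h ⟨by linarith [hs.1], by linarith [hs.2]⟩

theorem measurable_phi (τ : ℝ) : AEStronglyMeasurable (phi τ) volume := by
  have h1 : Measurable (Function.uncurry fun t s : ℝ => chi (t - s)) := by
    have : Measurable chi := measurable_const.indicator measurableSet_Icc
    exact this.comp (measurable_fst.sub measurable_snd)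
  have h2 := (h1.stronglyMeasurable).integral_prod_right' (ν := volume.restrict (Ioc 0 τ))
  have h3 := (h1.stronglyMeasurable).integral_prod_right' (ν := volume.restrict (Ioc τ 0))
  exact (h2.sub h3).aestronglyMeasurable

end banach

section hilbert

variable {K : Type*} [NormedAddCommGroup K] [InnerProductSpace ℂ K] [CompleteSpace K]
  {T : ℝ → K →L[ℂ] K}

omit [CompleteSpace K] in
theorem fourier_weight (T : ℝ → K →L[ℂ] K) (a : ℝ) (x : K) (p : ℝ → ℝ) (b : ℝ) :
    𝓕 (fun t : ℝ => p t • F T a x t) b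
      = ∫ t, p t • F T (a + ((2 * Real.pi * b : ℝ) : ℂ) * Complex.I) x t := by
  rw [Real.fourier_real_eq_integral_exp_smul]
  congr 1
  ext t
  rw [smul_comm, F, F, smul_smul, ← Complex.exp_add]
  congr 3
  push_cast
  ring

theorem eLpNorm_le (hT : IsC0Group T) (a : ℝ) {D : ℝ} (hD : 0 ≤ D)
    (hV : ∀ t : ℝ, 0 ≤ t → ∀ b : ℝ, ‖V hT (a + b * Complex.I) t‖ ≤ D) {τ : ℝ} (hτ : 0 ≤ τ) (x : K) :
    eLpNorm (fun t => phi τ t • F T a x t) 2 volume
      ≤ ENNReal.ofReal D * eLpNorm (fun t => chi t • F T a x t) 2 volume := by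
  have hF := continuous_F hT a x
  -- the two functions are nice
  have hnice : ∀ (p : ℝ → ℝ) (L B : ℝ), AEStronglyMeasurable p volume →
      (∀ t, |p t| ≤ B) → (∀ t, t ∉ Icc 0 L → p t = 0) →
      Integrable (fun t => p t • F T a x t) ∧ MemLp (fun t => p t • F T a x t) 2 volume := by
    intro p L B hp hpB hp0
    obtain ⟨N, hN⟩ : ∃ N : ℝ, ∀ s ∈ Icc 0 L, ‖F T a x s‖ ≤ N := by
      have hcomp : IsCompact ((fun s : ℝ => ‖F T a x s‖) '' Icc 0 L) :=
        isCompact_Icc.image hF.norm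
      obtain ⟨C, hC⟩ := hcomp.bddAbove
      exact ⟨C, fun s hs => hC ⟨s, hs, rfl⟩⟩
    have hmeas : AEStronglyMeasurable (fun t => p t • F T a x t) volume :=
      hp.smul hF.aestronglyMeasurable
    have hB : ∀ t, ‖p t • F T a x t‖ ≤ ‖(Icc 0 L).indicator (fun _ => B * N) t‖ := by
      intro t
      by_cases ht : t ∈ Icc 0 L
      · rw [indicator_of_mem ht, norm_smul]
        refine le_trans ?_ (le_abs_self _)
        have h1 := hN t ht
        have h2 := hpB t
        rw [Real.norm_eq_abs]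
        exact mul_le_mul h2 h1 (norm_nonneg _) ((abs_nonneg _).trans h2)
      · rw [hp0 t ht, zero_smul, norm_zero]
        exact norm_nonneg _
    constructor
    · exact Integrable.mono (g := (Icc 0 L).indicator (fun _ => B * N))
        ((integrable_indicator_iff measurableSet_Icc).2 continuous_const.integrableOn_Icc) hmeas
        (Eventually.of_forall hB)
    · exact MemLp.mono (g := (Icc 0 L).indicator (fun _ => B * N))
        (memLp_indicator_const _ measurableSet_Icc _ (Or.inr (by simp))) hmeas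
        (Eventually.of_forall hB)
  obtain ⟨g1, g2⟩ := hnice (phi τ) (τ + 1) τ (measurable_phi τ)
    (fun t => by rw [abs_of_nonneg (phi_nonneg_le hτ t).1]; exact (phi_nonneg_le hτ t).2)
    (fun t ht => phi_eq_zero hτ ht)
  obtain ⟨f1, f2⟩ := hnice chi 1 1
    ((measurable_const.indicator measurableSet_Icc).aestronglyMeasurable)
    (fun t => by simp only [chi, indicator]; split_ifs <;> norm_num)
    (fun t ht => by simp only [chi]; exact indicator_of_notMem ht _)
  rw [← plancherel _ g1 g2, ← plancherel _ f1 f2]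
  refine eLpNorm_le_mul_eLpNorm_of_ae_le_mul (Eventually.of_forall fun b => ?_) 2
  rw [fourier_weight, fourier_weight, ← V_V_eq hT _ x hτ, ← V_one_eq hT]
  refine (ContinuousLinearMap.le_opNorm _ _).trans ?_
  gcongr
  exact hV τ hτ _

theorem norm_le_of_V_bound (hT : IsC0Group T) (a : ℝ) {D : ℝ} (hD : 0 ≤ D)
    (hV : ∀ t : ℝ, 0 ≤ t → ∀ b : ℝ, ‖V hT (a + b * Complex.I) t‖ ≤ D) :
    ∃ B : ℝ, ∀ t : ℝ, 2 ≤ t → ‖T t‖ ≤ B * Real.exp (a * t) := by
  obtain ⟨M, hM1, hM⟩ := exists_bound hT 1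
  set N : ℝ := Real.exp |a| * M with hN
  have hN0 : 0 < N := by positivity
  have hFn : ∀ (x : K) (s : ℝ), ‖F T a x s‖ = Real.exp (-(a * s)) * ‖T s x‖ := by
    intro x s
    rw [F, norm_smul, Complex.norm_exp]
    simp
  refine ⟨N * D * N, fun t ht => ContinuousLinearMap.opNorm_le_bound _ (by positivity) fun x => ?_⟩
  have h1 := eLpNorm_le hT a hD hV (τ := t) (by linarith) x
  -- upper bound
  have h2 : eLpNorm (fun t => chi t • F T a x t) 2 volume ≤ ENNReal.ofReal (N * ‖x‖) := by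
    have h3 : eLpNorm (fun t => chi t • F T a x t) 2 volume
        ≤ eLpNorm ((Icc (0:ℝ) 1).indicator (fun _ => N * ‖x‖)) 2 volume := by
      apply eLpNorm_mono
      intro s
      by_cases hs : s ∈ Icc (0:ℝ) 1
      · rw [indicator_of_mem hs, norm_smul, hFn]
        have h4 : chi s = 1 := by simp only [chi]; exact indicator_of_mem hs _
        rw [h4, norm_one, one_mul, Real.norm_of_nonneg (by positivity), hN, mul_assoc]
        have h5 := (T s).le_opNorm x
        have h6 := hM s ⟨by linarith [hs.1], hs.2⟩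
        have h7 : -(a * s) ≤ |a| := by
          have := abs_mul a s
          have h8 := neg_abs_le (a * s)
          rw [abs_of_nonneg hs.1] at this
          nlinarith [abs_nonneg a, hs.1, hs.2]
        gcongr
        exact h5.trans (by gcongr)
      · rw [indicator_of_notMem hs]
        have h4 : chi s = 0 := by simp only [chi]; exact indicator_of_notMem hs _
        simp [h4]
    refine h3.trans ?_
    rw [eLpNorm_indicator_const measurableSet_Icc (by norm_num) (by norm_num)]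
    simp [Real.enorm_of_nonneg (show 0 ≤ N * ‖x‖ by positivity)]
  -- lower bound
  have h3 : ENNReal.ofReal (N⁻¹ * (Real.exp (-(a * t)) * ‖T t x‖))
      ≤ eLpNorm (fun s => phi t s • F T a x s) 2 volume := by
    have h4 : eLpNorm ((Icc (t - 1) t).indicator
        (fun _ => N⁻¹ * (Real.exp (-(a * t)) * ‖T t x‖))) 2 volume
        ≤ eLpNorm (fun s => phi t s • F T a x s) 2 volume := by
      apply eLpNorm_mono
      intro s
      by_cases hs : s ∈ Icc (t - 1) t
      · rw [indicator_of_mem hs, norm_smul, hFn, phi_eq_one (by linarith [hs.1]) hs.2, norm_one,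
          one_mul, Real.norm_of_nonneg (by positivity)]
        rw [inv_mul_le_iff₀ hN0]
        have h5 : T t x = T (t - s) (T s x) := by
          rw [← T_add hT]; congr 2; ring
        have h6 := (T (t - s)).le_opNorm (T s x)
        have h7 := hM (t - s) ⟨by linarith [hs.2], by linarith [hs.1]⟩
        have h8 : Real.exp (-(a * t)) = Real.exp (-(a * (t - s))) * Real.exp (-(a * s)) := by
          rw [← Real.exp_add]; congr 1; ring
        have h9 : -(a * (t - s)) ≤ |a| := by
          have h10 := neg_abs_le (a * (t - s))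
          have h11 := abs_mul a (t - s)
          rw [abs_of_nonneg (show 0 ≤ t - s by linarith [hs.2])] at h11
          nlinarith [abs_nonneg a, hs.1, hs.2]
        rw [h5, h8]
        calc Real.exp (-(a * (t - s))) * Real.exp (-(a * s)) * ‖T (t - s) (T s x)‖
            ≤ Real.exp |a| * Real.exp (-(a * s)) * (M * ‖T s x‖) := by
              gcongr
              exact h6.trans (by gcongr)
          _ = N * (Real.exp (-(a * s)) * ‖T s x‖) := by rw [hN]; ring
      · rw [indicator_of_notMem hs]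
        simp
    refine le_trans ?_ h4
    rw [eLpNorm_indicator_const measurableSet_Icc (by norm_num) (by norm_num)]
    simp [Real.enorm_of_nonneg
      (show 0 ≤ N⁻¹ * (Real.exp (-(a * t)) * ‖T t x‖) by positivity)]
  have h4 : ENNReal.ofReal (N⁻¹ * (Real.exp (-(a * t)) * ‖T t x‖))
      ≤ ENNReal.ofReal (D * (N * ‖x‖)) := by
    rw [ENNReal.ofReal_mul hD]
    exact h3.trans (h1.trans (by gcongr))
  rw [ENNReal.ofReal_le_ofReal_iff (by positivity), inv_mul_le_iff₀ hN0] at h4
  have h5 : Real.exp (a * t) * (Real.exp (-(a * t)) * ‖T t x‖) = ‖T t x‖ := by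
    rw [← mul_assoc, ← Real.exp_add]
    simp
  rw [← h5]
  calc Real.exp (a * t) * (Real.exp (-(a * t)) * ‖T t x‖)
      ≤ Real.exp (a * t) * (N * (D * (N * ‖x‖))) := by gcongr
    _ = N * D * N * Real.exp (a * t) * ‖x‖ := by ring

end hilbert

end

end Pool.Agent.Lib.MP_e5770a_an
end

section

/-!
# Spectral bound equals growth bound
-/

namespace Pool.Agent.Lib.MP_e5770a_an

open Filter Topology MeasureTheory Set

noncomputable section

section banach

variable {K : Type*} [NormedAddCommGroup K] [NormedSpace ℂ K] [CompleteSpace K]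
  {T : ℝ → K →L[ℂ] K}

/-- the growth bound exists and is finite -/
theorem exists_growth [Nontrivial K] (hT : IsC0Group T) :
    ∃ ω : ℝ, Tendsto (fun t : ℝ => Real.log ‖T t‖ / t) atTop (𝓝 ω) := by
  have hmul : ∀ s t : ℝ, ‖T (s + t)‖ ≤ ‖T s‖ * ‖T t‖ := by
    intro s t
    rw [hT.map_add]
    exact ContinuousLinearMap.opNorm_comp_le _ _
  have h0 : ‖T 0‖ = 1 := by
    rw [hT.map_zero]; exact ContinuousLinearMap.norm_id
  have hpos : ∀ t, 0 < ‖T t‖ := by
    intro t
    rcases (norm_nonneg (T t)).eq_or_lt with h | h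
    · exfalso
      have h1 := hmul t (-t)
      rw [add_neg_cancel, h0, ← h, zero_mul] at h1
      linarith
    · exact h
  set u : ℕ → ℝ := fun n => Real.log ‖T n‖ with hu
  have hsub : Subadditive u := by
    intro m n
    simp only [hu]
    rw [← Real.log_mul (hpos _).ne' (hpos _).ne']
    push_cast
    exact Real.log_le_log (hpos _) (hmul _ _)
  have hneg : ∀ n : ℕ, ‖T (-(n:ℝ))‖ ≤ ‖T (-1)‖ ^ n := by
    intro n
    induction n with
    | zero => simp [h0]
    | succ n ih =>
      have : (-((n + 1 : ℕ) : ℝ)) = -(n:ℝ) + -1 := by push_cast; ring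
      rw [this, pow_succ]
      exact (hmul _ _).trans (by gcongr)
  have hbdd : BddBelow (range fun n : ℕ => u n / n) := by
    refine ⟨min (-Real.log ‖T (-1)‖) 0, ?_⟩
    rintro _ ⟨n, rfl⟩
    rcases Nat.eq_zero_or_pos n with h | h
    · subst h
      simp
    · refine (min_le_left _ _).trans ?_
      have hn : (0:ℝ) < n := by exact_mod_cast h
      rw [le_div_iff₀ hn]
      have h1 : (1:ℝ) ≤ ‖T n‖ * ‖T (-1)‖ ^ n := by
        calc (1:ℝ) = ‖T ((n:ℝ) + -(n:ℝ))‖ := by rw [add_neg_cancel, h0]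
          _ ≤ ‖T n‖ * ‖T (-(n:ℝ))‖ := hmul _ _
          _ ≤ _ := by gcongr; exact hneg n
      have h2 := Real.log_le_log one_pos h1
      rw [Real.log_one, Real.log_mul (hpos _).ne' (pow_pos (hpos _) _).ne', Real.log_pow] at h2
      simp only [hu]
      linarith
  refine ⟨hsub.lim, ?_⟩
  have hlim := hsub.tendsto_lim hbdd
  obtain ⟨M, hM1, hM⟩ := exists_bound hT 1
  have hfl : ∀ t : ℝ, 0 ≤ t → |Real.log ‖T t‖ - u ⌊t⌋₊| ≤ Real.log M := by
    intro t ht
    have h1 := Nat.floor_le ht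
    have h2 := Nat.lt_floor_add_one t
    have e1 : ‖T t‖ ≤ ‖T (⌊t⌋₊ : ℝ)‖ * M := by
      calc ‖T t‖ = ‖T ((⌊t⌋₊ : ℝ) + (t - ⌊t⌋₊))‖ := by rw [add_sub_cancel]
        _ ≤ ‖T (⌊t⌋₊ : ℝ)‖ * ‖T (t - ⌊t⌋₊)‖ := hmul _ _
        _ ≤ _ := by
          gcongr
          exact hM _ ⟨by linarith, by linarith⟩
    have e2 : ‖T (⌊t⌋₊ : ℝ)‖ ≤ ‖T t‖ * M := by
      calc ‖T (⌊t⌋₊ : ℝ)‖ = ‖T (t + ((⌊t⌋₊ : ℝ) - t))‖ := by rw [add_sub_cancel]
        _ ≤ ‖T t‖ * ‖T ((⌊t⌋₊ : ℝ) - t)‖ := hmul _ _
        _ ≤ _ := by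
          gcongr
          exact hM _ ⟨by linarith, by linarith⟩
    have hMp : 0 < M := by linarith
    have e3 := Real.log_le_log (hpos _) e1
    have e4 := Real.log_le_log (hpos _) e2
    rw [Real.log_mul (hpos _).ne' hMp.ne'] at e3 e4
    simp only [hu]
    rw [abs_le]
    constructor <;> linarith
  -- the limit along the reals
  have hA : Tendsto (fun t : ℝ => u ⌊t⌋₊ / ⌊t⌋₊ * (⌊t⌋₊ / t)) atTop (𝓝 (hsub.lim * 1)) :=
    (hlim.comp tendsto_nat_floor_atTop).mul (tendsto_nat_floor_div_atTop)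
  rw [mul_one] at hA
  have hB : Tendsto (fun t : ℝ => (Real.log ‖T t‖ - u ⌊t⌋₊) / t) atTop (𝓝 0) := by
    have hC : Tendsto (fun t : ℝ => Real.log M / t) atTop (𝓝 0) :=
      tendsto_const_nhds.div_atTop tendsto_id
    refine squeeze_zero_norm' ?_ hC
    filter_upwards [eventually_gt_atTop 0] with t ht
    rw [norm_div, Real.norm_eq_abs, Real.norm_of_nonneg ht.le]
    gcongr
    exact hfl t ht.le
  have hD := hA.add hB
  rw [add_zero] at hD
  refine hD.congr' ?_
  filter_upwards [eventually_ge_atTop 1] with t ht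
  have hfpos : (0:ℝ) < ⌊t⌋₊ := by
    exact_mod_cast Nat.floor_pos.2 ht
  field_simp
  ring

/-- every spectral value has real part at most the growth bound -/
theorem re_le_growth (hT : IsC0Group T) {ω : ℝ}
    (hω : Tendsto (fun t : ℝ => Real.log ‖T t‖ / t) atTop (𝓝 ω)) {z : ℂ} (hz : z ∈ genSpectrum T) :
    z.re ≤ ω := by
  by_contra hcon
  push Not at hcon
  apply hz
  obtain ⟨t, ht1, ht2⟩ := ((hω.eventually (gt_mem_nhds hcon)).and (eventually_gt_atTop 0)).exists
  refine ⟨_, isResolvent_V hT z t ?_⟩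
  rw [norm_smul, Complex.norm_exp]
  have h1 : (-(z * t)).re = -(z.re * t) := by simp
  rw [h1]
  rcases (norm_nonneg (T t)).eq_or_lt with h | h
  · rw [← h]; simp
  · rw [div_lt_iff₀ ht2, Real.log_lt_iff_lt_exp h] at ht1
    calc Real.exp (-(z.re * t)) * ‖T t‖ < Real.exp (-(z.re * t)) * Real.exp (z.re * t) := by
          gcongr
      _ = 1 := by rw [← Real.exp_add]; simp

end banach

section hilbert

variable {H K : Type*} [NormedAddCommGroup H] [InnerProductSpace ℝ H] [CompleteSpace H]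
  [NormedAddCommGroup K] [InnerProductSpace ℂ K] [CompleteSpace K]
  {T : ℝ → K →L[ℂ] K} {ι : H →ₗ[ℝ] K} {C : Set H}

omit [CompleteSpace H] [CompleteSpace K] in
theorem norm_iota (hι : IsComplexification ι) (x : H) : ‖ι x‖ = ‖x‖ := by
  have h1 := hι.inner_map x x
  rw [inner_self_eq_norm_sq_to_K, real_inner_self_eq_norm_sq] at h1
  have h2 : ‖ι x‖ ^ 2 = ‖x‖ ^ 2 := by
    have h3 : ((‖ι x‖ ^ 2 : ℝ) : ℂ) = ((‖x‖ ^ 2 : ℝ) : ℂ) := by
      push_cast
      push_cast at h1
      exact h1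
    exact_mod_cast h3
  exact (sq_eq_sq₀ (norm_nonneg _) (norm_nonneg _)).1 h2

omit [CompleteSpace K] in
theorem isCone_image (hι : IsComplexification ι) (hC : IsOrderCone C) : IsCone (ι '' C) where
  zero_mem := ⟨0, hC.zero_mem, map_zero _⟩
  add_mem := by
    rintro _ ⟨x, hx, rfl⟩ _ ⟨y, hy, rfl⟩
    exact ⟨x + y, hC.add_mem x hx y hy, map_add _ _ _⟩
  smul_mem := by
    rintro r hr _ ⟨x, hx, rfl⟩
    exact ⟨r • x, hC.smul_mem r hr x hx, map_smul _ _ _⟩
  isClosed := by
    have hiso : Isometry ι := AddMonoidHomClass.isometry_of_norm ι (norm_iota hι)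
    exact hiso.isClosedEmbedding.isClosedMap _ hC.isClosed

/-- the main inequality: the growth bound is at most the real spectral bound -/
theorem growth_le [Nontrivial K] (hι : IsComplexification ι) (hC : IsOrderCone C) (hT : IsC0Group T)
    (hpos : ∀ t, IsPositiveOp ι C (T t)) {ω : ℝ}
    (hω : Tendsto (fun t : ℝ => Real.log ‖T t‖ / t) atTop (𝓝 ω)) {a : ℝ}
    (ha : ∀ l : ℝ, a ≤ l → (l : ℂ) ∉ genSpectrum T) : ω ≤ a := by
  have hP := isCone_image hι hC
  have hposP : ∀ t, Pos (ι '' C) (T t) := by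
    rintro t _ ⟨x, hx, rfl⟩
    obtain ⟨y, hy, hxy⟩ := hpos t x hx
    exact ⟨y, hy, hxy.symm⟩
  obtain ⟨c, hc0, hc⟩ := hC.normal
  have hnorm : ∀ x y : K, x ∈ ι '' C → y - x ∈ ι '' C → ‖x‖ ≤ c * ‖y‖ := by
    rintro _ y ⟨x, hx, rfl⟩ ⟨u, hu, hux⟩
    have h1 : y = ι (x + u) := by rw [map_add, hux]; abel
    rw [h1, norm_iota hι, norm_iota hι]
    exact hc x (x + u) hx (by simpa using hu)
  have hgen : ∀ z : K, ∃ x₁ ∈ ι '' C, ∃ x₂ ∈ ι '' C, ∃ x₃ ∈ ι '' C, ∃ x₄ ∈ ι '' C,
      z = (x₁ - x₂) + Complex.I • (x₃ - x₄) := by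
    intro z
    obtain ⟨x, y, hz⟩ := hι.exists_decomp z
    obtain ⟨x₁, h₁, x₂, h₂, hx⟩ := hC.generating x
    obtain ⟨x₃, h₃, x₄, h₄, hy⟩ := hC.generating y
    refine ⟨ι x₁, ⟨_, h₁, rfl⟩, ι x₂, ⟨_, h₂, rfl⟩, ι x₃, ⟨_, h₃, rfl⟩, ι x₄, ⟨_, h₄, rfl⟩, ?_⟩
    rw [hz, hx, hy, map_sub, map_sub]
  have hres : ∀ l : ℝ, ∃ R : K →L[ℂ] K, a ≤ l → IsResolvent T l R := by
    intro l
    by_cases hl : a ≤ l
    · have := ha l hl
      simp only [genSpectrum, mem_ofPred_eq, not_not] at this
      obtain ⟨R, hR⟩ := this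
      exact ⟨R, fun _ => hR⟩
    · exact ⟨0, fun h => absurd h hl⟩
  choose R hR using hres
  -- positivity of the resolvent for large parameters
  obtain ⟨l₁, hl₁, hRl₁⟩ : ∃ l₁ : ℝ, a ≤ l₁ ∧ Pos (ι '' C) (R l₁) := by
    refine ⟨max a (ω + 1), le_max_left _ _, ?_⟩
    have hlt : ω < max a (ω + 1) := lt_of_lt_of_le (by linarith) (le_max_right _ _)
    obtain ⟨t, ht1, ht2⟩ := ((hω.eventually (gt_mem_nhds hlt)).and (eventually_gt_atTop 0)).exists
    refine pos_resolvent_of_norm_lt hT hP hposP _ ht2.le ?_ (hR _ (le_max_left _ _))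
    rw [norm_smul, Complex.norm_exp]
    have h1 : (-(((max a (ω + 1) : ℝ) : ℂ) * t)).re = -((max a (ω + 1)) * t) := by simp
    rw [h1]
    rcases (norm_nonneg (T t)).eq_or_lt with h | h
    · rw [← h]; simp
    · rw [div_lt_iff₀ ht2, Real.log_lt_iff_lt_exp h] at ht1
      calc Real.exp (-((max a (ω + 1)) * t)) * ‖T t‖
          < Real.exp (-((max a (ω + 1)) * t)) * Real.exp ((max a (ω + 1)) * t) := by gcongr
        _ = 1 := by rw [← Real.exp_add]; simp
  have hRa : Pos (ι '' C) (R a) := pos_resolvent hP hl₁ R hR hRl₁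
  obtain ⟨D, hD0, hD⟩ := exists_bound_V hT hP hposP hc0.le hnorm hgen a (hR a le_rfl) hRa
  obtain ⟨B, hB⟩ := norm_le_of_V_bound hT a hD0 hD
  set B' := max B 1 with hB'
  have hB'1 : 1 ≤ B' := le_max_right _ _
  have hlim : Tendsto (fun t : ℝ => a + Real.log B' / t) atTop (𝓝 (a + 0)) :=
    tendsto_const_nhds.add (tendsto_const_nhds.div_atTop tendsto_id)
  rw [add_zero] at hlim
  refine le_of_tendsto_of_tendsto hω hlim ?_
  filter_upwards [eventually_ge_atTop 2] with t ht
  have ht0 : 0 < t := by linarith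
  rw [div_le_iff₀ ht0, add_mul, div_mul_cancel₀ _ ht0.ne']
  rcases (norm_nonneg (T t)).eq_or_lt with h | h
  · exfalso
    have hTt : T t = 0 := norm_eq_zero.1 h.symm
    obtain ⟨v, hv⟩ := exists_ne (0 : K)
    apply hv
    have h2 := T_add hT (-t) t v
    rw [neg_add_cancel, T_zero hT, hTt] at h2
    simpa using h2
  · have h1 := hB t ht
    have h2 : ‖T t‖ ≤ B' * Real.exp (a * t) := h1.trans (by gcongr; exact le_max_left _ _)
    have h3 := Real.log_le_log h h2
    rw [Real.log_mul (by linarith) (Real.exp_pos _).ne', Real.log_exp] at h3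
    linarith

omit [CompleteSpace H] [CompleteSpace K] in
theorem nontrivial_of_complexification [Nontrivial H] (hι : IsComplexification ι) :
    Nontrivial K := by
  obtain ⟨x, hx⟩ := exists_ne (0 : H)
  refine ⟨ι x, 0, fun h => hx ?_⟩
  rw [← norm_eq_zero, ← norm_iota hι, h, norm_zero]

theorem main [Nontrivial H] (hι : IsComplexification ι) (hC : IsOrderCone C) (hT : IsC0Group T)
    (hpos : ∀ t, IsPositiveOp ι C (T t)) :
    ∃ ω : ℝ, Tendsto (fun t : ℝ => Real.log ‖T t‖ / t) atTop (𝓝 ω) ∧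
      IsLUB (Complex.re '' genSpectrum T) ω := by
  have := nontrivial_of_complexification (ι := ι) hι
  obtain ⟨ω, hω⟩ := exists_growth hT
  refine ⟨ω, hω, ?_, ?_⟩
  · rintro _ ⟨z, hz, rfl⟩
    exact re_le_growth hT hω hz
  · intro b hb
    refine le_of_forall_gt_imp_ge_of_dense fun a hab => growth_le hι hC hT hpos hω fun l hl hmem => ?_
    have := hb ⟨_, hmem, rfl⟩
    rw [Complex.ofReal_re] at this
    linarith

end hilbert

end

end Pool.Agent.Lib.MP_e5770a_an
end
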